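import Pool.Agent.N728.QG.Def
import Pool.Agent.N92.QL.LOC

/-! # QG/LOC: the average of the sieve model along the polynomial -/

open Finset Pool.Agent.N728.QL Pool.Agent.N92.QL
open Pool.Agent.N728.QG (fp)

namespace Pool.Agent.N878.QG

noncomputable section

open Classical in
/-- **LOC** -/
theorem t_LOC : Pool.Agent.N728.QG.S_LOC := by
  intro G c z
  have hV : 0 < VW 0 z := by
    unfold VW
    refine prod_pos fun p hp => ?_
    have hp' : (2 : ℝ) ≤ p := by exact_mod_cast (mem_filter.1 hp).2.two_le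
    have : 1 / (p : ℝ) ≤ 1 / 2 := one_div_le_one_div_of_le (by norm_num) hp'
    linarith
  have hQ : 0 < PP 0 z := by
    unfold PP
    exact prod_pos fun p hp => (mem_filter.1 hp).2.pos
  have hQ' : (0 : ℝ) < PP 0 z := by exact_mod_cast hQ
  refine ⟨(VW 0 z)⁻¹ * PP 0 z, by positivity, fun b T1 T2 hT => ?_⟩
  obtain ⟨S, hS⟩ : ∃ S, S = (Ioc 0 z).filter Nat.Prime := ⟨_, rfl⟩
  have hSp : ∀ p ∈ S, p.Prime := fun p hp => by
    rw [hS] at hp
    exact (mem_filter.1 hp).2
  obtain ⟨P, hP⟩ : ∃ P : ℕ → ℕ → Prop, P = fun p t : ℕ => ¬ (p : ℤ) ∣ fp G b c t := ⟨_, rfl⟩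
  have hdv : ∀ p t : ℕ, (p : ℤ) ∣ fp G b c (t % p) ↔
      (p : ℤ) ∣ fp G b c t := by
    intro p t
    have h1 : ((t % p : ℕ) : ℤ) ≡ t [ZMOD p] := by
      push_cast
      exact Int.mod_modEq _ _
    have h0 : G.eval ((t % p : ℕ) : ℤ) ≡ G.eval (t : ℤ) [ZMOD p] := by
      have hd := (Int.ModEq.dvd h1.symm).trans (Polynomial.sub_dvd_eval_sub ((t % p : ℕ) : ℤ) (t : ℤ) G)
      exact (Int.modEq_of_dvd hd).symm
    have h2 : fp G b c (t % p) ≡
        fp G b c t [ZMOD p] := (h1.mul (h0.add_right b)).add_right c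
    rw [← Int.modEq_zero_iff_dvd, ← Int.modEq_zero_iff_dvd]
    exact ⟨fun h => h2.symm.trans h, fun h => h2.trans h⟩
  have hR : ∀ t : ℕ, Rg 0 z (fp G b c t) ↔ ∀ p ∈ S, P p (t % p) := by
    intro t
    rw [hP, hS]
    unfold Rg
    simp only [mem_filter, mem_Ioc]
    constructor
    · rintro h p ⟨⟨h1, h2⟩, h3⟩
      rw [hdv]
      exact h p h3 h1 h2
    · intro h p h3 h1 h2
      have := h p ⟨⟨h1, h2⟩, h3⟩
      rwa [hdv] at this
  obtain ⟨g, hg⟩ : ∃ g : ℕ → ℝ, g = fun t : ℕ => lz z (fp G b c t) := ⟨_, rfl⟩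
  have hgv : ∀ t, g t = if ∀ p ∈ S, P p (t % p) then (VW 0 z)⁻¹ else 0 := by
    intro t
    rw [hg]
    show lz z _ = _
    unfold lz
    by_cases h : Rg 0 z (fp G b c t)
    · rw [if_pos h, if_pos ((hR t).1 h)]
    · rw [if_neg h, if_neg (fun h' => h ((hR t).2 h'))]
  have hPP : PP 0 z = ∏ p ∈ S, p := by rw [hS]; rfl
  have hper : ∀ n, g (n + PP 0 z) = g n := by
    intro n
    rw [hgv, hgv]
    have : ∀ p ∈ S, (n + PP 0 z) % p = n % p := by
      intro p hp
      have hd : p ∣ PP 0 z := by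
        rw [hPP]
        exact dvd_prod_of_mem (fun p => p) hp
      obtain ⟨k, hk⟩ := hd
      rw [hk, Nat.add_mul_mod_self_left]
    congr 1
    rw [eq_iff_iff]
    refine forall₂_congr fun p hp => ?_
    rw [this p hp]
  have hg0 : ∀ n, 0 ≤ g n := by
    intro n
    rw [hgv]
    split_ifs <;> positivity
  have hg1 : ∀ n, g n ≤ (VW 0 z)⁻¹ := by
    intro n
    rw [hgv]
    split_ifs
    · exact le_rfl
    · positivity
  have hsum : (∑ i ∈ range (PP 0 z), g i) / PP 0 z = Pool.Agent.N728.QG.Sg G b c z := by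
    have h1 : ∑ i ∈ range (PP 0 z), g i =
        ((∏ p ∈ S, ((range p).filter (P p)).card : ℕ) : ℝ) * (VW 0 z)⁻¹ := by
      rw [← loc_crt S P hSp, ← hPP]
      simp_rw [hgv]
      rw [← sum_filter, sum_const, nsmul_eq_mul]
    rw [h1, hPP]
    unfold Pool.Agent.N728.QG.Sg VW
    rw [← hS, prod_div_distrib]
    push_cast
    rw [div_eq_mul_inv, div_eq_mul_inv, mul_right_comm]
    congr 1
    rw [← div_eq_mul_inv, ← prod_div_distrib]
    refine prod_congr rfl fun p hp => ?_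
    have hp0 : (0 : ℝ) < p := by exact_mod_cast (hSp p hp).pos
    have h2 : ((range p).filter (P p)).card + Pool.Agent.N728.QG.om G b c p = p := by
      have h3 := card_filter_add_card_filter_not (s := range p)
        (fun t : ℕ => (p : ℤ) ∣ fp G b c t)
      rw [card_range] at h3
      rw [add_comm]
      unfold Pool.Agent.N728.QG.om
      rw [hP]
      convert h3 using 2
      congr!
    have h3 : (((range p).filter (P p)).card : ℝ) = p - Pool.Agent.N728.QG.om G b c p := by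
      have : ((((range p).filter (P p)).card : ℝ) + Pool.Agent.N728.QG.om G b c p) = p := by exact_mod_cast h2
      linarith
    rw [h3]
    field_simp
  have h := loc_periodic hQ hper hg0 hg1 (T2 - T1) (T1 + 1)
  rw [hsum] at h
  have h4 : ∑ t ∈ Ioc T1 T2, lz z (fp G b c t) =
      ∑ i ∈ range (T2 - T1), g (T1 + 1 + i) := by
    have h6 : Ioc T1 T2 = Ico (T1 + 1) (T2 + 1) := by
      ext x
      simp only [mem_Ioc, mem_Ico]
      omega
    rw [h6, Finset.sum_Ico_eq_sum_range, show T2 + 1 - (T1 + 1) = T2 - T1 by omega, hg]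
  rw [h4]
  have h5 : ((T2 : ℝ) - T1) = ((T2 - T1 : ℕ) : ℝ) := by
    rw [Nat.cast_sub hT]
  rw [h5]
  exact h

end

end Pool.Agent.N878.QG
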